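import Pool.Agent.Q66.RX.Stm

/-!
# Project RX (helper66): characters of the dual of a group with a reflexive open subgroup
-/

set_option autoImplicit false
set_option linter.unusedSectionVars false

namespace Pool.Agent.Q44.RX

open Topology Filter Set Pool.Agent.Q66.RX

section

variable {G : Type} [CommGroup G] [TopologicalSpace G] [IsTopologicalGroup G]

theorem mul_ap (χ ψ : PontryaginDual G) (g : G) : (χ * ψ) g = χ g * ψ g := rfl

theorem inv_ap (χ : PontryaginDual G) (g : G) : (χ⁻¹) g = (χ g)⁻¹ := rfl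

theorem cont_ap (g : G) : Continuous fun χ : PontryaginDual G => χ g :=
  continuous_eval_const (F := G →ₜ* Circle) g

end

theorem t_OPB (hE : S_OPE) (hD : S_OPD) : S_OPB := by
  intro G _ _ _ H hH hR Φ
  obtain ⟨g, hg⟩ := hD G H hH Φ
  obtain ⟨ext, hext, hlim⟩ := hE G H hH
  have key : ∀ χ χ' : PontryaginDual G, (∀ h ∈ H, χ h = χ' h) →
      Φ χ * (χ g)⁻¹ = Φ χ' * (χ' g)⁻¹ := by
    intro χ χ' h
    have h1 := hg (χ * χ'⁻¹) fun x hx => by
      rw [mul_ap, inv_ap, h x hx, mul_inv_cancel]
    rw [map_mul, map_inv, mul_ap, inv_ap] at h1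
    have h2 : Φ χ = χ g * (χ' g)⁻¹ * Φ χ' := by
      rw [← h1, inv_mul_cancel_right]
    rw [h2]
    have h3 : ∀ a b c : Circle, a * b⁻¹ * c * a⁻¹ = c * b⁻¹ := by
      intro a b c
      rw [mul_assoc a b⁻¹ c, mul_comm a (b⁻¹ * c), mul_inv_cancel_right, mul_comm]
    exact h3 _ _ _
  let P : PontryaginDual H →* Circle :=
    { toFun := fun η => Φ (ext η) * ((ext η) g)⁻¹
      map_one' := by
        rw [key (ext 1) 1 fun h hh => (hext 1 ⟨h, hh⟩).trans rfl, map_one]
        rw [PontryaginDual.one_apply, inv_one, one_mul]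
      map_mul' := fun η η' => by
        rw [key (ext (η * η')) (ext η * ext η') fun h hh => by
          rw [mul_ap]
          have e1 := hext (η * η') ⟨h, hh⟩
          have e2 := hext η ⟨h, hh⟩
          have e3 := hext η' ⟨h, hh⟩
          simp only at e1 e2 e3
          rw [e1, e2, e3]
          rfl]
        rw [map_mul, mul_ap, mul_inv]
        exact mul_mul_mul_comm _ _ _ _ }
  have hP : Continuous P := by
    apply continuous_of_continuousAt_one P
    have h1 : P 1 = 1 := map_one P
    unfold ContinuousAt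
    rw [h1]
    have h2 : Continuous fun χ : PontryaginDual G => Φ χ * (χ g)⁻¹ :=
      (map_continuous Φ).mul (cont_ap g).inv
    have h3 : Tendsto (fun χ : PontryaginDual G => Φ χ * (χ g)⁻¹) (𝓝 1) (𝓝 1) := by
      have h4 := h2.tendsto 1
      simp only [map_one, PontryaginDual.one_apply, inv_one, mul_one] at h4
      exact h4
    exact h3.comp hlim
  let Q : PontryaginDual (PontryaginDual H) := ({ toMonoidHom := P, continuous_toFun := hP } :
    PontryaginDual H →ₜ* Circle)
  obtain ⟨h, hh⟩ := hR Q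
  refine ⟨g * h, fun χ => ?_⟩
  let η : PontryaginDual H := (χ : G →ₜ* Circle).comp
    ({ toMonoidHom := H.subtype, continuous_toFun := continuous_subtype_val } : H →ₜ* G)
  have e1 : ∀ x : H, η x = χ x := fun x => rfl
  have e2 : Φ χ * (χ g)⁻¹ = Q η := by
    have e3 := key χ (ext η) fun x hx => by
      rw [hext η ⟨x, hx⟩]
      exact (e1 ⟨x, hx⟩).symm
    exact e3
  rw [hh η, e1] at e2
  rw [map_mul, ← e2, mul_comm (Φ χ), mul_inv_cancel_left]

end Pool.Agent.Q44.RX
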